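import Pool.Agent.FS.ThreeCase.Main

/-!
Divisors of X^(m q^b) - 1 have unbounded coefficients as soon as m is at least three.
-/

set_option autoImplicit false

namespace Pool.Agent.FS.OnlyTwo

open Polynomial Finset Pool.Agent.FS.ThreeCase

/-- The polynomial `g` divides the quotient of X^(m q^n) - 1 by X^m - 1. -/
def Div (m q n : ℕ) (g : ℤ[X]) : Prop := g * (X ^ m - 1) ∣ X ^ (m * q ^ n) - 1

theorem split {m q : ℕ} (hm : 0 < m) (hq : q.Prime) (hnd : ¬q ∣ m) :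
    ∃ T : ℤ[X], expand ℤ q (∑ i ∈ range m, X ^ i) = (∑ i ∈ range m, X ^ i) * T ∧
      (∑ i ∈ range q, X ^ i) * T * (X ^ m - 1) = X ^ (m * q) - 1 := by
  have h : (∑ i ∈ range m, X ^ i : ℤ[X]) ∣ expand ℤ q (∑ i ∈ range m, X ^ i) := by
    rw [← prod_cyclotomic_eq_geom_sum hm ℤ, map_prod]
    refine prod_dvd_prod_of_dvd _ _ fun d hd => ?_
    rw [cyclotomic_expand_eq_cyclotomic_mul hq
      (fun h => hnd (h.trans (Nat.dvd_of_mem_divisors (mem_of_mem_erase hd)))) ℤ]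
    exact dvd_mul_left _ _
  obtain ⟨T, hT⟩ := h
  refine ⟨T, hT, ?_⟩
  have h1 := geom_sum_mul (X : ℤ[X]) m
  have h2 := geom_sum_mul (X : ℤ[X]) q
  have h3 := congrArg (expand ℤ q) h1
  rw [map_mul, hT, map_sub, map_sub, map_pow, expand_X, map_one, ← pow_mul, mul_comm q m] at h3
  rw [← h3, ← h1, ← h2]
  ring

theorem div_step {m q n : ℕ} {g : ℤ[X]} (T : ℤ[X]) (hT : T * (X ^ m - 1) ∣ X ^ (m * q) - 1)
    (hg : Div m q n g) : Div m q (n + 1) (T * expand ℤ q g) := by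
  have h := map_dvd (expand ℤ q) hg
  rw [map_mul, map_sub, map_sub, map_pow, map_pow, expand_X, map_one, ← pow_mul, ← pow_mul,
    mul_comm q m, show q * (m * q ^ n) = m * q ^ (n + 1) by ring] at h
  refine dvd_trans ?_ h
  rw [mul_comm T, mul_assoc]
  exact mul_dvd_mul_left _ hT

theorem flatten {m q n : ℕ} (hm : 0 < m) (hq : q.Prime) (hnd : ¬q ∣ m) {g : ℤ[X]}
    (hg : Div m q n g) (k L : ℕ) :
    ∃ (n' : ℕ) (G : ℤ[X]) (k' : ℕ), Div m q n' G ∧ ∀ i ≤ L, G.coeff (k' + i) = g.coeff k := by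
  induction L with
  | zero => exact ⟨n, g, k, hg, fun i hi => by rw [Nat.le_zero.1 hi, add_zero]⟩
  | succ L ih =>
    obtain ⟨n', G, k', h1, h2⟩ := ih
    obtain ⟨T, -, hT⟩ := split hm hq hnd
    refine ⟨n' + 1, (∑ i ∈ range q, X ^ i) * expand ℤ q G, q * k',
      div_step _ ⟨T, by rw [← hT]; ring⟩ h1, fun i hi => ?_⟩
    have h3 := coeff_low_mul hq.pos (fun _ => 1) G (q * k' + i)
    simp only [map_one, one_mul] at h3
    rw [h3, Nat.mul_add_div hq.pos]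
    apply h2
    have : i / q ≤ i / 2 := Nat.div_le_div_left hq.two_le two_pos
    omega

theorem grow {m q n : ℕ} (hm : 0 < m) (hq : q.Prime) (hnd : ¬q ∣ m) {g : ℤ[X]}
    (hg : Div m q n g) (k : ℕ) :
    ∃ (n' : ℕ) (f : ℤ[X]) (k' : ℕ), Div m q n' f ∧ m * |g.coeff k| ≤ 2 * |f.coeff k'| := by
  obtain ⟨n', G, k', h1, h2⟩ := flatten hm hq hnd hg k m
  obtain ⟨T, hT0, hT⟩ := split hm hq hnd
  have hD : Div m q (n' + 1) (T * expand ℤ q G) :=
    div_step _ ⟨∑ i ∈ range q, X ^ i, by rw [← hT]; ring⟩ h1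
  have e : X ^ m * (T * expand ℤ q G) - T * expand ℤ q G =
      X * expand ℤ q ((∑ i ∈ range m, X ^ i) * G) - expand ℤ q ((∑ i ∈ range m, X ^ i) * G) := by
    rw [map_mul, hT0, ← sub_one_mul, ← geom_sum_mul (X : ℤ[X]) m]
    ring
  have hH : ((∑ i ∈ range m, X ^ i) * G).coeff (k' + m) = m * g.coeff k := by
    rw [sum_mul, finsetSum_coeff, sum_congr rfl (g := fun _ => g.coeff k)]
    · simp
    · intro i hi
      have := mem_range.1 hi
      rw [show k' + m = (k' + (m - i)) + i by omega, coeff_X_pow_mul, h2 _ (by omega)]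
  have c := congrArg (fun h : ℤ[X] => h.coeff (q * (k' + m) + 1)) e
  have hn : ¬q ∣ q * (k' + m) + 1 := fun h =>
    hq.one_lt.ne' (Nat.dvd_one.1 ((Nat.dvd_add_right (dvd_mul_right _ _)).1 h))
  have hle : m ≤ q * (k' + m) + 1 := by nlinarith [hq.pos]
  simp only [coeff_sub, coeff_X_mul] at c
  rw [coeff_expand_mul' hq.pos, hH, coeff_expand hq.pos, if_neg hn, sub_zero, coeff_X_pow_mul',
    if_pos hle] at c
  have h3 := abs_sub ((T * expand ℤ q G).coeff (q * (k' + m) + 1 - m))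
    ((T * expand ℤ q G).coeff (q * (k' + m) + 1))
  rw [c, abs_mul, Nat.abs_cast] at h3
  rcases le_total |(T * expand ℤ q G).coeff (q * (k' + m) + 1 - m)|
    |(T * expand ℤ q G).coeff (q * (k' + m) + 1)| with h | h
  · exact ⟨_, _, q * (k' + m) + 1, hD, by linarith⟩
  · exact ⟨_, _, q * (k' + m) + 1 - m, hD, by linarith⟩

theorem unbounded {m q : ℕ} (hm : 3 ≤ m) (hq : q.Prime) (hnd : ¬q ∣ m) (M : ℕ) :
    ∃ (n : ℕ) (f : ℤ[X]) (k : ℕ), Div m q n f ∧ (M : ℤ) + 1 ≤ |f.coeff k| := by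
  induction M with
  | zero => exact ⟨0, 1, 0, by simp [Div], by simp⟩
  | succ M ih =>
    obtain ⟨n, g, k, hg, h⟩ := ih
    obtain ⟨n', f, k', hf, h'⟩ := grow (by omega) hq hnd hg k
    refine ⟨n', f, k', hf, ?_⟩
    have h3 : (3 : ℤ) ≤ m := by exact_mod_cast hm
    have h4 : 3 * |g.coeff k| ≤ m * |g.coeff k| := mul_le_mul_of_nonneg_right h3 (abs_nonneg _)
    push_cast
    omega

end Pool.Agent.FS.OnlyTwo
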